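import Pool.Agent.H93.TN.TargetsD
import Pool.Agent.H69.BR.FN2

/-! # MP_ee74d2_an, TN board, module FN3 (helper58), after FN2 by helper69 -/

set_option autoImplicit false

namespace Pool.Agent.H58.TN

open MeasureTheory Set FourierTransform
open Pool.Agent.H83.LS Pool.Agent.H54.LS Pool.Agent.H84.BR Pool.Agent.H84.B2
open Pool.Agent.H69.BRF Pool.Agent.H93.TN
open scoped ENNReal NNReal SchwartzMap

/-- FN3 -/
theorem pf_fn3 (hHG : T_HG3) (hLOWF : T_LOWF) (hYG : T_YG) (hPLE : T_PLE) : T_FN3 := by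
  intro a b p σ ha hb hp hσ
  have haR : (2 : ℝ) ≤ a := by exact_mod_cast ha
  have hbR : (1 : ℝ) ≤ b := by exact_mod_cast hb
  set D : ℝ := (a : ℝ) + b - 1 with hD
  have hD0 : 0 < D := by rw [hD]; linarith
  have hcast : (((a + b : ℕ) : ℝ)) - 1 = D := by
    rw [hD]
    push_cast
    ring
  have hp2 : 2 < p := by
    have : (0 : ℝ) < 2 / D := by positivity
    linarith
  have hp1 : 1 ≤ p := by linarith
  have hp0 : 0 < p := lt_of_lt_of_le one_pos hp1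
  have hδ : 0 < (1 - p * σ) / 2 := by
    rw [lt_div_iff₀ hp0] at hσ
    nlinarith
  have hb' : 0 ≤ th p := by
    unfold th
    exact le_max_of_le_right (by positivity)
  have ha' : 0 ≤ 1 - th p := by
    unfold th
    rw [sub_nonneg]
    refine max_le ?_ ?_
    · have h1 : 2 / p ≤ 1 := (div_le_one hp0).2 hp2.le
      linarith
    · rw [div_le_one (by linarith)]
      linarith
  obtain ⟨C₀, h₀⟩ := hHG a b p (D / 2 - D / p - σ) ((1 - p * σ) / 2) ha hb hp hδ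
  obtain ⟨C₁, h₁⟩ := hHG a b p (D / 2 - D / p - 1 - σ) ((1 - p * σ) / 2) ha hb hp hδ
  obtain ⟨C, hC⟩ := Pool.Agent.H73.LS.both hLOWF hPLE hYG (a + b) (by omega) p
    ((1 - p * σ) / 2) (D / 2 - D / p - σ) (D / 2 - D / p - 1 - σ) hp1 hδ (C₀ + C₁)
  refine ⟨2 * C, fun u₀ u₁ N₀ N₁ hN hN₀ hN₁ => ?_⟩
  unfold dat at hN₀ hN₁
  simp only [hcast] at hN₀ hN₁
  have e₀ : D * (p / 2 - 1) - 1 - p * (D / 2 - D / p - σ) + (1 - p * σ) / 2 =
      -((1 - p * σ) / 2) := by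
    field_simp
    ring
  have e₁ : D * (p / 2 - 1) - 1 - p * (D / 2 - D / p - 1 - σ + 1) +
      (1 - p * σ) / 2 = -((1 - p * σ) / 2) := by
    field_simp
    ring
  have hGM : N₀ ≤ N₀ ^ (1 - th p) * N₁ ^ (th p) := le_gm _ _ ha' hb' (by ring) hN
  have hDp : N₀ ^ p ≤ (N₀ ^ (1 - th p) * N₁ ^ (th p)) ^ p := ENNReal.rpow_le_rpow hGM hp0.le
  have hNp : N₀ ^ p ≤ N₁ ^ p := ENNReal.rpow_le_rpow hN hp0.le
  have g₀ : ∫⁻ x, ‖besS (D / 2 - D / p - σ) u₀ x‖ₑ ^ p ≤ N₀ ^ p := by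
    rw [← Pool.Agent.H73.LS.eLp_pow p hp0]
    exact ENNReal.rpow_le_rpow (le_self_add.trans hN₀) hp0.le
  have g₁ : ∫⁻ x, ‖besS (D / 2 - D / p - 1 - σ) u₁ x‖ₑ ^ p ≤ N₀ ^ p := by
    rw [← Pool.Agent.H73.LS.eLp_pow p hp0]
    exact ENNReal.rpow_le_rpow (le_add_self.trans hN₀) hp0.le
  have k₀ : ∀ i j : Fin (a + b), (i.val < a ↔ j.val < a) →
      ∫⁻ x, ‖besS (D / 2 - D / p - σ) (rotd i j u₀) x‖ₑ ^ p ≤ N₁ ^ p := by
    intro i j hij
    rw [← Pool.Agent.H73.LS.eLp_pow p hp0]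
    exact ENNReal.rpow_le_rpow (le_self_add.trans (hN₁ i j hij)) hp0.le
  have k₁ : ∀ i j : Fin (a + b), (i.val < a ↔ j.val < a) →
      ∫⁻ x, ‖besS (D / 2 - D / p - 1 - σ) (rotd i j u₁) x‖ₑ ^ p ≤ N₁ ^ p := by
    intro i j hij
    rw [← Pool.Agent.H73.LS.eLp_pow p hp0]
    exact ENNReal.rpow_le_rpow (le_add_self.trans (hN₁ i j hij)) hp0.le
  refine (hC u₀ u₁ (N₀ ^ (1 - th p) * N₁ ^ (th p)) (N₀ ^ (1 - th p) * N₁ ^ (th p))
    (g₀.trans hDp) (g₁.trans hDp) (fun lam hlam => ?_) (fun lam hlam => ?_)).trans ?_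
  · have h2 := (h₀ lam u₀ (N₀ ^ p) (N₁ ^ p) hlam hNp g₀ k₀).1
    rw [e₀, gm_rpow _ _ _ hp0.le] at h2
    refine h2.trans ?_
    gcongr
    exact_mod_cast le_self_add
  · have h2 := (h₁ lam u₁ (N₀ ^ p) (N₁ ^ p) hlam hNp g₁ k₁).2
    rw [e₁, gm_rpow _ _ _ hp0.le] at h2
    refine h2.trans ?_
    gcongr
    exact_mod_cast le_add_self
  · push_cast
    rw [← two_mul]
    apply le_of_eq
    ring


end Pool.Agent.H58.TN
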