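import Pool.Agent.H93.TN.TargetsD

/-! # MP_ee74d2_an, TN board, module FNC (helper58), after Final by helper84 -/

set_option autoImplicit false

namespace Pool.Agent.H58.TN

open MeasureTheory Set SchwartzMap
open Pool.Agent.H84.BR Pool.Agent.H93.TN
open scoped NNReal ENNReal

theorem dat_eq_datN {d : ℕ} (p σ : ℝ) (f g : CD.EE d → ℂ) : dat p σ f g = CD.datN p σ f g := by
  unfold dat CD.datN CD.sobNorm
  rw [show ((d : ℝ) - 1) / 2 - ((d : ℝ) - 1) / p - σ = ((d : ℝ) - 1) * (1 / 2 - 1 / p) - σ by ring,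
    show ((d : ℝ) - 1) / 2 - ((d : ℝ) - 1) / p - 1 - σ =
      ((d : ℝ) - 1) * (1 / 2 - 1 / p) - 1 - σ by ring]
  rfl

/-- FNC -/
theorem pf_fnc (hFN3 : T_FN3) : T_FNC := by
  intro a b ha hb p σ hp hσ
  have haR : (2 : ℝ) ≤ a := by exact_mod_cast ha
  have hbR : (1 : ℝ) ≤ b := by exact_mod_cast hb
  have hp' : 2 + 2 / ((a : ℝ) + b - 1) ≤ p := by
    refine le_trans (le_of_eq ?_) hp
    have h0 : (0 : ℝ) < a + b - 1 := by linarith
    have h1 : (a : ℝ) + b - 1 ≠ 0 := h0.ne'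
    field_simp
    ring
  obtain ⟨C, hC⟩ := hFN3 a b p σ ha hb hp' hσ
  refine ⟨C, fun u₀ u₁ => ?_⟩
  refine hC u₀ u₁ (CD.datN p σ u₀ u₁) (CD.datN p σ u₀ u₁ + CD.angR a p σ u₀ u₁) le_self_add
    (dat_eq_datN p σ u₀ u₁).le ?_
  intro i j hij
  rw [dat_eq_datN]
  refine le_trans ?_ le_add_self
  unfold CD.angR
  exact le_iSup_of_le i (le_iSup_of_le j (le_iSup_of_le hij le_rfl))

end Pool.Agent.H58.TN
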