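import Pool.Agent.H93.TN.TargetsC
import Pool.Agent.H19.LS.STRONG

/-!
Local smoothing with a smaller fraction of an angular derivative (MP_ee74d2_an), module PLH:
one piece, high frequencies in the second block only
-/

set_option autoImplicit false

namespace Pool.Agent.H58.TN

open MeasureTheory Set FourierTransform
open Pool.Agent.H83.LS Pool.Agent.H93.AR Pool.Agent.H54.LS Pool.Agent.H14.LS Pool.Agent.H83.AR
open Pool.Agent.H84.BR Pool.Agent.H84.B2 Pool.Agent.H93.TN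
open scoped ENNReal NNReal

theorem p1_cont (a b : ℕ) : Continuous (p1 a b) := by
  unfold p1
  fun_prop

theorem p2_cont (a b : ℕ) : Continuous (p2 a b) := by
  unfold p2
  fun_prop

theorem eta0_cont : Continuous eta0 := by
  unfold eta0
  exact Real.smoothTransition.continuous.comp (by fun_prop)

theorem chi_cont : Continuous chi := by
  unfold chi
  exact eta0_cont.sub (eta0_cont.comp (by fun_prop))

theorem MM_mc_cont (a b : ℕ) (c₁ c₂ : ℝ → ℝ) (h1 : Continuous c₁) (h2 : Continuous c₂) (lam : ℝ)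
    (hl : 0 < lam) (f : EE (a + b) → ℂ) :
    Continuous fun p : ℝ × EE (a + b) => MM (mc a b c₁ c₂ lam p.1) f p.2 := by
  by_cases hf : Integrable f
  · unfold MM
    have hfc : Continuous (𝓕 f) := Pool.Agent.H19.LS.fourier_cont f hf
    have hcc : Continuous fun ξ : EE (a + b) =>
        ((c₁ ‖p1 a b ξ‖ * c₂ ‖p2 a b ξ‖ : ℝ) : ℂ) := by
      have h3 := p1_cont a b
      have h4 := p2_cont a b
      exact Complex.continuous_ofReal.comp
        ((h1.comp h3.norm).mul (h2.comp h4.norm))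
    have hmc : ∀ t, Continuous (mc a b c₁ c₂ lam t) := fun t =>
      (Pool.Agent.H19.LS.mT_cont lam hl t).mul hcc
    apply continuous_of_dominated (bound := fun ξ : EE (a + b) =>
      ‖mc a b c₁ c₂ lam 0 ξ * 𝓕 f ξ‖)
    · intro p
      exact ((continuous_e.comp (by fun_prop)).mul
        ((hmc p.1).mul hfc)).aestronglyMeasurable
    · intro p
      refine Filter.Eventually.of_forall fun ξ => ?_
      rw [norm_mul, norm_e, one_mul, norm_mul, norm_mul]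
      unfold mc mT
      rw [norm_mul, norm_mul, norm_mul, norm_mul, norm_e, norm_e]
    · have h5 : Integrable fun ξ : EE (a + b) => mc a b c₁ c₂ lam 0 ξ * 𝓕 f ξ := by
        apply ((hmc 0).mul hfc).integrable_of_hasCompactSupport
        refine HasCompactSupport.of_support_subset_isCompact
          (isCompact_closedBall (0 : EE (a + b)) (2 * lam)) ?_
        intro ξ hξ
        rw [mem_closedBall_zero_iff]
        apply Pool.Agent.H19.LS.mT_supp lam hl 0 ξ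
        intro h0
        apply hξ
        change mT lam 0 ξ * _ * 𝓕 f ξ = 0
        rw [h0, zero_mul, zero_mul]
      exact h5.norm
    · refine Filter.Eventually.of_forall fun ξ => ?_
      unfold mc mT
      exact (continuous_e.comp (by fun_prop)).mul
        ((((continuous_e.comp (by fun_prop)).mul continuous_const).mul continuous_const).mul
          continuous_const)
  · have h0 : ∀ ξ, 𝓕 f ξ = 0 := fun ξ => by
      show VectorFourier.fourierIntegral Real.fourierChar volume (innerₗ (EE (a + b))) f ξ = 0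
      unfold VectorFourier.fourierIntegral
      exact integral_undef (mt (VectorFourier.fourierIntegral_convergent_iff
        Real.continuous_fourierChar (by exact continuous_inner) ξ).1 hf)
    have h3 : (fun p : ℝ × EE (a + b) => MM (mc a b c₁ c₂ lam p.1) f p.2) = fun _ => 0 := by
      funext p
      unfold MM
      simp only [h0, mul_zero, integral_zero]
    rw [h3]
    exact continuous_const

/-- covering of the ball of radius `Z` by regions, then `Z → ∞` -/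
theorem limit_Z {d n : ℕ} (F : ℝ × EE d → ℝ≥0∞) (hF : Measurable F) (P : EE d → EE n)
    (B : ℝ≥0∞)
    (h : ∀ Z : ℝ, 4 ≤ Z → ∫⁻ t in Icc (1 : ℝ) 2, ∫⁻ x in {x : EE d | ‖P x‖ ≤ Z}, F (t, x) ≤ B) :
    ∫⁻ t in Icc (1 : ℝ) 2, ∫⁻ x, F (t, x) ≤ B := by
  have h1 : ∀ t, ∫⁻ x, F (t, x) = ⨆ k : ℕ, ∫⁻ x in {x : EE d | ‖P x‖ ≤ (k : ℝ) + 4}, F (t, x) := by
    intro t
    rw [← setLIntegral_iUnion_of_directed]
    · have hu : (⋃ k : ℕ, {x : EE d | ‖P x‖ ≤ (k : ℝ) + 4}) = univ := by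
        refine eq_univ_of_forall fun x => ?_
        obtain ⟨k, hk⟩ := exists_nat_ge ‖P x‖
        exact mem_iUnion.2 ⟨k, by
          show ‖P x‖ ≤ (k : ℝ) + 4
          linarith⟩
      rw [hu, Measure.restrict_univ]
    · refine (monotone_nat_of_le_succ fun k x hx => ?_).directed_le
      have hx' : ‖P x‖ ≤ (k : ℝ) + 4 := hx
      show ‖P x‖ ≤ ((k + 1 : ℕ) : ℝ) + 4
      push_cast
      linarith
  have h2 : ∀ k : ℕ, Measurable fun t : ℝ =>
      ∫⁻ x in {x : EE d | ‖P x‖ ≤ (k : ℝ) + 4}, F (t, x) := fun k =>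
    Measurable.lintegral_prod_right' (ν := volume.restrict _) hF
  have h3 : ∫⁻ t in Icc (1 : ℝ) 2, ∫⁻ x, F (t, x) =
      ⨆ k : ℕ, ∫⁻ t in Icc (1 : ℝ) 2, ∫⁻ x in {x : EE d | ‖P x‖ ≤ (k : ℝ) + 4}, F (t, x) := by
    rw [← lintegral_iSup h2]
    · exact lintegral_congr fun t => h1 t
    · refine monotone_nat_of_le_succ fun k t => ?_
      refine lintegral_mono_set fun x hx => ?_
      have hx' : ‖P x‖ ≤ (k : ℝ) + 4 := hx
      show ‖P x‖ ≤ ((k + 1 : ℕ) : ℝ) + 4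
      push_cast
      linarith
  rw [h3]
  refine iSup_le fun k => h _ ?_
  have : (0 : ℝ) ≤ k := Nat.cast_nonneg k
  linarith

/-- finitely many regions -/
theorem cover_J {d n : ℕ} (F : ℝ × EE d → ℝ≥0∞) (hF : Measurable F) (P : EE d → EE n)
    (Z : ℝ) (J : ℕ) (ρ σ : ℕ → ℝ)
    (hc : ∀ r : ℝ, 0 ≤ r → r ≤ Z → ∃ j < J, ρ j ≤ r ∧ r ≤ σ j) (B : ℝ≥0∞)
    (h : ∀ j < J, ∫⁻ t in Icc (1 : ℝ) 2, ∫⁻ x in {x : EE d | ρ j ≤ ‖P x‖ ∧ ‖P x‖ ≤ σ j},
      F (t, x) ≤ B) :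
    ∫⁻ t in Icc (1 : ℝ) 2, ∫⁻ x in {x : EE d | ‖P x‖ ≤ Z}, F (t, x) ≤ J * B := by
  have h1 : ∀ t, ∫⁻ x in {x : EE d | ‖P x‖ ≤ Z}, F (t, x) ≤
      ∑ j : Fin J, ∫⁻ x in {x : EE d | ρ j ≤ ‖P x‖ ∧ ‖P x‖ ≤ σ j}, F (t, x) := by
    intro t
    have h2 := lintegral_iUnion_le (μ := (volume : Measure (EE d)))
      (fun j : Fin J => {x : EE d | ρ j ≤ ‖P x‖ ∧ ‖P x‖ ≤ σ j}) fun x => F (t, x)
    rw [tsum_fintype] at h2
    refine le_trans (lintegral_mono_set fun x hx => ?_) h2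
    obtain ⟨j, hj, h3, h4⟩ := hc ‖P x‖ (norm_nonneg _) hx
    exact mem_iUnion.2 ⟨⟨j, hj⟩, h3, h4⟩
  have h2 : ∀ j : Fin J, Measurable fun t : ℝ =>
      ∫⁻ x in {x : EE d | ρ j ≤ ‖P x‖ ∧ ‖P x‖ ≤ σ j}, F (t, x) := fun j =>
    Measurable.lintegral_prod_right' (ν := volume.restrict _) hF
  calc ∫⁻ t in Icc (1 : ℝ) 2, ∫⁻ x in {x : EE d | ‖P x‖ ≤ Z}, F (t, x)
      ≤ ∫⁻ t in Icc (1 : ℝ) 2, ∑ j : Fin J,
          ∫⁻ x in {x : EE d | ρ j ≤ ‖P x‖ ∧ ‖P x‖ ≤ σ j}, F (t, x) := lintegral_mono h1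
    _ = ∑ j : Fin J, ∫⁻ t in Icc (1 : ℝ) 2,
          ∫⁻ x in {x : EE d | ρ j ≤ ‖P x‖ ∧ ‖P x‖ ≤ σ j}, F (t, x) :=
        lintegral_finsetSum _ fun j _ => h2 j
    _ ≤ ∑ _j : Fin J, B := Finset.sum_le_sum fun j _ => h j j.2
    _ = J * B := by
        rw [Finset.sum_const, Finset.card_univ, Fintype.card_fin, nsmul_eq_mul]

theorem one_le_mulR {x y : ℝ} (hx : 1 ≤ x) (hy : 1 ≤ y) : 1 ≤ x * y := by nlinarith

theorem dl_sqrt {lam : ℝ} (hl : 1 ≤ lam) : dl lam (Real.sqrt lam) = 1 / 16 := by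
  unfold dl
  have h : 0 < Real.sqrt lam := Real.sqrt_pos.2 (by linarith)
  field_simp

theorem pf_plh (hLH : T_LH) (hRGN : T_RGN) (hARI : T_ARI) : T_PLH := by
  intro a b q η ha hb hq hq3 hη
  set ε : ℝ := min 1 (η / (2 * a + 2 * b + 8)) with hεd
  have hden : (0 : ℝ) < 2 * a + 2 * b + 8 := by positivity
  have hε : 0 < ε := lt_min one_pos (div_pos hη hden)
  have hε1 : ε ≤ 1 := min_le_left _ _
  have hεη : ε * (2 * a + 2 * b + 8) ≤ η := by
    have h1 : ε ≤ η / (2 * a + 2 * b + 8) := min_le_right _ _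
    rwa [le_div_iff₀ hden] at h1
  obtain ⟨C₁, hC₁⟩ := hLH a b q ε 0 ha hb hq hq3 hε hε1
  obtain ⟨C₂, hC₂1, hC₂⟩ := hRGN b ε hb hε
  have hC₂0 : 0 ≤ C₂ := by linarith
  set K : ℝ := (4096 * C₂) ^ ((a : ℝ) + b) with hKd
  have hK0 : 0 ≤ K := by positivity
  refine ⟨C₁ * (C₂ * (K + 1)).toNNReal, ?_⟩
  intro lam Lam L A h hlam hLam1 hLam2 hL hBI
  have hlam0 : 0 < lam := by linarith
  have hsq : Real.sqrt lam ≤ lam := by
    rw [Real.sqrt_le_left hlam0.le]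
    nlinarith
  have hsq1 : 1 ≤ Real.sqrt lam := by
    rw [show (1 : ℝ) = Real.sqrt 1 by simp]
    exact Real.sqrt_le_sqrt hlam
  have hLam0 : 0 < Lam := by linarith
  have hA : 0 ≤ A := (norm_nonneg _).trans (hBI.2.2 0)
  set E : ℝ := ExR ((a : ℝ) + b - 1) q with hEd
  have hE : 0 ≤ E := le_max_left _ _
  set I : ℝ≥0∞ := ∫⁻ x, ‖h x‖ₑ ^ 2 with hI
  set F : ℝ × EE (a + b) → ℝ≥0∞ := fun p =>
    ‖MM (mc a b (fun s => eta0 (s / Real.sqrt lam)) (fun s => chi (s / Lam)) lam p.1)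
      (A2 a b L h) p.2‖ₑ ^ q with hFd
  have hFm : Measurable F := by
    have h1 := MM_mc_cont a b (fun s => eta0 (s / Real.sqrt lam)) (fun s => chi (s / Lam))
      (eta0_cont.comp (by fun_prop)) (chi_cont.comp (by fun_prop)) lam hlam0 (A2 a b L h)
    exact (h1.measurable.enorm).pow_const q
  show ∫⁻ t in Icc (1 : ℝ) 2, ∫⁻ x, F (t, x) ≤ _
  refine limit_Z F hFm (p2 a b) _ fun Z hZ => ?_
  obtain ⟨J, ρ, φ, σ, hJ, hcov, hreg⟩ := hC₂ lam Lam L Z hlam hLam1 hLam2 hL hZ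
  have hreal : ∀ j < J, lam ^ (2 * ε) * FR b q lam Lam (φ j) *
        min 1 (σ j * lam / Lam) ^ (2 - q / 2) + (lam ^ 0)⁻¹ ≤
      (K + 1) * (lam ^ (2 * ε + 2 * ε * ((a : ℝ) + b)) * (lam ^ E * L ^ (2 - q / 2))) := by
    intro j hj
    obtain ⟨-, hσ, hφ1, hφ2, hlo⟩ := hreg j hj
    have hσ0 : 0 < σ j * lam / Lam := by
      have h1 : 0 < σ j := lt_of_lt_of_le (by positivity) hσ
      positivity
    set T : ℝ := min 1 (σ j * lam / Lam) with hTd
    have hT0 : 0 < T := lt_min one_pos hσ0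
    have hT1 : T ≤ 1 := min_le_left _ _
    have hari := hARI a b q ha hb hq hq3 C₂ lam L ε (Real.sqrt lam) Lam (1 / 16) (φ j) 1 T
      hC₂1 hlam hL hε le_rfl (by linarith) hLam1 hLam2 (dl_sqrt hlam).le (by norm_num) hφ1 hφ2
      one_pos le_rfl hT0 hT1 (fun _ => by
        rw [dl_sqrt hlam]
        have h1 : (1 : ℝ) ≤ lam ^ (2 * ε) := Real.one_le_rpow hlam (by positivity)
        have h2 : (1 : ℝ) ≤ C₂ * lam ^ (2 * ε) := one_le_mulR hC₂1 h1
        have h3 : (1 : ℝ) ≤ C₂ * lam ^ (2 * ε) * L := one_le_mulR h2 hL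
        norm_num
        exact h3) hlo
    have hFR1 : FR a q lam (Real.sqrt lam) (1 / 16) = 1 := by
      unfold FR
      rw [dl_sqrt hlam, div_self (by norm_num), Real.one_rpow]
    have hTT : min 1 (min 1 T) = T := by
      rw [min_eq_right hT1, min_eq_right hT1]
    rw [hFR1, one_mul, hTT] at hari
    have h1 : (1 : ℝ) ≤ lam ^ (2 * ε + 2 * ε * ((a : ℝ) + b)) :=
      Real.one_le_rpow hlam (by positivity)
    have h2 : (1 : ℝ) ≤ lam ^ E := Real.one_le_rpow hlam hE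
    have h3 : (1 : ℝ) ≤ L ^ (2 - q / 2) := Real.one_le_rpow hL (by linarith)
    have h4 : (1 : ℝ) ≤ lam ^ E * L ^ (2 - q / 2) := one_le_mulR h2 h3
    have h5 : (1 : ℝ) ≤ lam ^ (2 * ε + 2 * ε * ((a : ℝ) + b)) * (lam ^ E * L ^ (2 - q / 2)) :=
      one_le_mulR h1 h4
    have h6 : lam ^ (2 * ε + 2 * ε * ((a : ℝ) + b)) =
        lam ^ (2 * ε) * lam ^ (2 * ε * ((a : ℝ) + b)) := Real.rpow_add hlam0 _ _
    have h7 : 0 ≤ lam ^ (2 * ε) := Real.rpow_nonneg hlam0.le _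
    calc lam ^ (2 * ε) * FR b q lam Lam (φ j) * T ^ (2 - q / 2) + (lam ^ 0)⁻¹
        = lam ^ (2 * ε) * (FR b q lam Lam (φ j) * T ^ (2 - q / 2)) + 1 := by
          rw [pow_zero, inv_one]
          ring
      _ ≤ lam ^ (2 * ε) * (K * lam ^ (2 * ε * ((a : ℝ) + b)) * (lam ^ E * L ^ (2 - q / 2))) +
          lam ^ (2 * ε + 2 * ε * ((a : ℝ) + b)) * (lam ^ E * L ^ (2 - q / 2)) :=
          add_le_add (mul_le_mul_of_nonneg_left hari h7) h5
      _ = _ := by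
          rw [h6]
          ring
  have hmain := cover_J F hFm (p2 a b) Z J ρ σ hcov
    (C₁ * ENNReal.ofReal ((K + 1) * (lam ^ (2 * ε + 2 * ε * ((a : ℝ) + b)) *
      (lam ^ E * L ^ (2 - q / 2))) * A ^ (q - 2)) * I) (fun j hj => by
        obtain ⟨hRG, hσ, -, -, -⟩ := hreg j hj
        refine (hC₁ lam Lam L (ρ j) (φ j) (σ j) A h hlam hLam1 hLam2 hL hσ hRG hBI).trans ?_
        gcongr
        exact hreal j hj)
  refine hmain.trans ?_
  have hJ' : (J : ℝ≥0∞) = ENNReal.ofReal (J : ℝ) := (ENNReal.ofReal_natCast J).symm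
  have hC' : ((C₁ * (C₂ * (K + 1)).toNNReal : ℝ≥0) : ℝ≥0∞) =
      C₁ * ENNReal.ofReal (C₂ * (K + 1)) := by
    rw [ENNReal.coe_mul]
    rfl
  have hAq : 0 ≤ A ^ (q - 2) := Real.rpow_nonneg hA _
  have hfin : (J : ℝ) * ((K + 1) * (lam ^ (2 * ε + 2 * ε * ((a : ℝ) + b)) *
      (lam ^ E * L ^ (2 - q / 2))) * A ^ (q - 2)) ≤
      C₂ * (K + 1) * (lam ^ (E + η) * L ^ (2 - q / 2) * A ^ (q - 2)) := by
    have h0 : 0 ≤ (K + 1) * (lam ^ (2 * ε + 2 * ε * ((a : ℝ) + b)) *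
      (lam ^ E * L ^ (2 - q / 2))) * A ^ (q - 2) := by
      have := Real.rpow_nonneg (by linarith : (0 : ℝ) ≤ L) (2 - q / 2)
      positivity
    refine (mul_le_mul_of_nonneg_right hJ h0).trans ?_
    have h1 : lam ^ ε * (lam ^ (2 * ε + 2 * ε * ((a : ℝ) + b)) * lam ^ E) ≤ lam ^ (E + η) := by
      rw [← Real.rpow_add hlam0, ← Real.rpow_add hlam0]
      apply Real.rpow_le_rpow_of_exponent_le hlam
      have h3 : ε * (2 * a + 2 * b + 8) = 3 * ε + 2 * ε * ((a : ℝ) + b) + 5 * ε := by ring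
      linarith
    have h2 : 0 ≤ C₂ * (K + 1) * (L ^ (2 - q / 2) * A ^ (q - 2)) := by
      have := Real.rpow_nonneg (by linarith : (0 : ℝ) ≤ L) (2 - q / 2)
      positivity
    calc C₂ * lam ^ ε * ((K + 1) * (lam ^ (2 * ε + 2 * ε * ((a : ℝ) + b)) *
          (lam ^ E * L ^ (2 - q / 2))) * A ^ (q - 2))
        = C₂ * (K + 1) * (L ^ (2 - q / 2) * A ^ (q - 2)) *
          (lam ^ ε * (lam ^ (2 * ε + 2 * ε * ((a : ℝ) + b)) * lam ^ E)) := by ring
      _ ≤ C₂ * (K + 1) * (L ^ (2 - q / 2) * A ^ (q - 2)) * lam ^ (E + η) :=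
          mul_le_mul_of_nonneg_left h1 h2
      _ = _ := by ring
  calc (J : ℝ≥0∞) * (C₁ * ENNReal.ofReal ((K + 1) * (lam ^ (2 * ε + 2 * ε * ((a : ℝ) + b)) *
        (lam ^ E * L ^ (2 - q / 2))) * A ^ (q - 2)) * I)
      = C₁ * (ENNReal.ofReal J * ENNReal.ofReal ((K + 1) *
          (lam ^ (2 * ε + 2 * ε * ((a : ℝ) + b)) *
        (lam ^ E * L ^ (2 - q / 2))) * A ^ (q - 2))) * I := by
        rw [hJ']
        ring
    _ = C₁ * ENNReal.ofReal (J * ((K + 1) * (lam ^ (2 * ε + 2 * ε * ((a : ℝ) + b)) *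
        (lam ^ E * L ^ (2 - q / 2))) * A ^ (q - 2))) * I := by
        rw [← ENNReal.ofReal_mul (Nat.cast_nonneg J)]
    _ ≤ C₁ * ENNReal.ofReal (C₂ * (K + 1) *
          (lam ^ (E + η) * L ^ (2 - q / 2) * A ^ (q - 2))) * I := by
        gcongr
    _ = _ := by
        rw [hC', ENNReal.ofReal_mul (by positivity)]
        ring

end Pool.Agent.H58.TN
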